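import Mathlib
import Pool.Agent.Lib.MP_cd40e2_lc.Main

set_option autoImplicit false

open Finset
open scoped Classical

namespace Pool.Agent.Lib.MP_cd40e2_lc.Old.ExplicitTester

/-- The cube is encoded by Booleans, true standing for 1 and false for -1. A function is a
halfspace (linear threshold function) if it is true exactly where an affine form is nonnegative. -/
def IsLTF {n : ℕ} (f : (Fin n → Bool) → Bool) : Prop :=
  ∃ (w : Fin n → ℝ) (θ : ℝ), ∀ x, f x = true ↔ 0 ≤ ∑ i, w i * (if x i then (1:ℝ) else -1) - θ

/-- The distance of two Boolean functions under the uniform distribution on the cube. -/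
noncomputable def dist {n : ℕ} (f g : (Fin n → Bool) → Bool) : ℝ :=
  ((univ.filter fun x => f x ≠ g x).card : ℝ) / 2 ^ n

/-- The query point attached to y: for the seed p, which gives every variable i a block
(p i).1 and a sign (p i).2, the i-th coordinate is the sign times the block coordinate of y. -/
def queryPoint {n m : ℕ} (p : Fin n → Fin m × Bool) (y : Fin m → Bool) : Fin n → Bool :=
  fun i => if (p i).2 then y (p i).1 else !(y (p i).1)

open Pool.Agent.Lib.MP_cd40e2_lc in
/-- The tester draws a uniform seed p, queries f at the 2^m points queryPoint p y and accepts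
exactly when the answers form a halfspace in the m variables y. For a suitable m depending only on
ε it accepts every halfspace for every seed, and rejects every function that is ε-far from all
halfspaces for at least two thirds of the seeds. -/
theorem result (ε : ℝ) (hε : 0 < ε) : ∃ m : ℕ, 0 < m ∧ ∀ (n : ℕ) (f : (Fin n → Bool) → Bool),
    (IsLTF f → ∀ p : Fin n → Fin m × Bool, IsLTF (fun y => f (queryPoint p y))) ∧
    ((∀ g, IsLTF g → ε ≤ dist f g) →
      (2:ℝ) / 3 ≤ ((univ.filter fun p : Fin n → Fin m × Bool =>
        ¬ IsLTF (fun y => f (queryPoint p y))).card : ℝ)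
          / (Fintype.card (Fin n → Fin m × Bool) : ℝ)) := by
  obtain ⟨m, hm, hacc⟩ := accept_bound ε hε
  have hq : ∀ {n : ℕ} (p : Fin n → Fin m × Bool) (y : Fin m → Bool),
      queryPoint p y = emb p y := by
    intro n p y
    funext i
    simp only [queryPoint, emb]
    cases (p i).2 <;> cases y (p i).1 <;> rfl
  refine ⟨m, hm, fun n f => ⟨?_, fun hf => ?_⟩⟩
  · rintro ⟨w, θ, hw⟩ p
    refine ⟨fun j => ∑ i, if (p i).1 = j then w i * sg (p i).2 else 0, θ, fun y => ?_⟩
    change f (queryPoint p y) = true ↔ 0 ≤ ∑ j, (∑ i, if (p i).1 = j then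
      w i * sg (p i).2 else 0) * sg (y j) - θ
    rw [hw, hq]
    have : ∑ i, w i * (if emb p y i then (1:ℝ) else -1)
        = ∑ j, (∑ i, if (p i).1 = j then w i * sg (p i).2 else 0) * sg (y j) := by
      simp only [Finset.sum_mul]
      rw [Finset.sum_comm]
      refine Finset.sum_congr rfl fun i _ => ?_
      simp only [ite_mul, zero_mul, Finset.sum_ite_eq, Finset.mem_univ, if_true]
      rw [mul_assoc, ← sg_emb]
      rfl
    rw [this]
  · have hU : (0:ℝ) < (2 * m) ^ n := by positivity
    have hcard : (Fintype.card (Fin n → Fin m × Bool) : ℝ) = (2 * m) ^ n := by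
      simp [mul_comm]
    have hb := hacc n f (by
      intro w θ
      have h1 := hf (fun x => decide (0 ≤ ∑ i, w i * sg (x i) - θ))
        ⟨w, θ, fun x => decide_eq_true_iff⟩
      refine ⟨fun x => if f x ≠ decide (0 ≤ ∑ i, w i * sg (x i) - θ) then 1 else 0,
        fun x => ite_nonneg zero_le_one le_rfl, fun x => ite_le_one le_rfl zero_le_one,
        ?_, fun x => ?_⟩
      · rw [dist, le_div_iff₀ (by positivity)] at h1
        rw [Finset.sum_boole]
        exact h1
      · change (if f x ≠ decide (0 ≤ ∑ i, w i * sg (x i) - θ) then (1:ℝ) else 0) * _ * _ ≤ 0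
        split_ifs with h
        · by_cases hθ : 0 ≤ ∑ i, w i * sg (x i) - θ
          · have : f x = false := by
              rw [decide_eq_true hθ] at h
              simpa using h
            rw [this]
            simp only [sg_false]
            linarith
          · have : f x = true := by
              rw [decide_eq_false hθ] at h
              simpa using h
            rw [this]
            simp only [sg_true]
            linarith [not_le.mp hθ]
        · simp)
    rw [hcard, le_div_iff₀ hU, ← Finset.sum_boole]
    have hpt : ∀ p : Fin n → Fin m × Bool,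
        (if ¬ IsLTF (fun y => f (queryPoint p y)) then (1:ℝ) else 0)
        = 1 - (if ∃ (W : Fin m → ℝ) (θ : ℝ), ∀ y, f (emb p y) = true ↔
            θ ≤ ∑ j, W j * sg (y j) then (1:ℝ) else 0) := by
      intro p
      have : IsLTF (fun y => f (queryPoint p y)) ↔ ∃ (W : Fin m → ℝ) (θ : ℝ), ∀ y,
          f (emb p y) = true ↔ θ ≤ ∑ j, W j * sg (y j) := by
        simp only [IsLTF, hq, sub_nonneg]
        rfl
      rw [this]
      split_ifs <;> norm_num
    simp only [hpt]
    rw [Finset.sum_sub_distrib, Finset.sum_const, Finset.card_univ, nsmul_eq_mul, hcard]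
    linarith

end Pool.Agent.Lib.MP_cd40e2_lc.Old.ExplicitTester
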